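import Mathlib
import Pool.Agent.Helper50.PR.Defs

namespace Pool.Agent.Helper50.PR

theorem aux8_pell {a : ℕ} (a1 : 1 < a) (x y : ℕ) (h : (x : ℤ) ^ 2 - ((a : ℤ) ^ 2 - 1) * (y : ℤ) ^ 2 = 1) :
    ∃ k, x = Pell.xn a1 k ∧ y = Pell.yn a1 k := by
  apply Pell.eq_pell
  have h1 := Pell.dz_val a1
  simp only [Pell.az] at h1
  rw [Nat.sub_eq_iff_eq_add]
  · zify
    rw [h1]
    nlinarith [h]
  · zify
    rw [h1]
    nlinarith [h]

theorem aux8_pell_eq {a : ℕ} (a1 : 1 < a) (k : ℕ) :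
    (Pell.xn a1 k : ℤ) ^ 2 - ((a : ℤ) ^ 2 - 1) * (Pell.yn a1 k : ℤ) ^ 2 = 1 := by
  have h1 := Pell.pell_eqz a1 k
  have h2 := Pell.dz_val a1
  simp only [Pell.az, Pell.xz, Pell.yz] at h1 h2
  rw [h2] at h1
  nlinarith [h1]

theorem aux8_modEq_sq {b : ℕ} (b1 : 1 < b) (h : ℕ) :
    (Pell.xn b1 h : ℤ) ≡ 1 + (h : ℤ) ^ 2 * ((b : ℤ) - 1) [ZMOD ((b : ℤ) - 1) ^ 2] := by
  induction h using Nat.twoStepInduction with
  | zero => simp [Int.ModEq]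
  | one => simp [Int.ModEq]
  | more n ih0 ih1 =>
    have h1 := Pell.xz_succ_succ b1 n
    simp only [Pell.xz] at h1
    rw [h1]
    rw [Int.modEq_iff_dvd] at ih0 ih1 ⊢
    obtain ⟨u, hu⟩ := ih0
    obtain ⟨v, hv⟩ := ih1
    refine ⟨2 * b * v - u - 2 * ((n:ℤ) + 1) ^ 2, ?_⟩
    push_cast at hu hv ⊢
    linear_combination (2 * (b:ℤ)) * hv - hu

theorem aux8_even_dvd {a : ℕ} (a1 : 1 < a) (m : ℕ) :
    (((a : ℤ) ^ 2 - 1) ∣ (Pell.xn a1 (2 * m) : ℤ) - 1) := by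
  have h1 := aux8_pell_eq a1 m
  have h2 : (Pell.xn a1 (2 * m) : ℤ) = Pell.xn a1 m * Pell.xn a1 m + ((a : ℤ) ^ 2 - 1) * Pell.yn a1 m * Pell.yn a1 m := by
    rw [two_mul, Pell.xn_add]
    push_cast
    rw [Pell.dz_val a1]
    simp only [Pell.az]
    ring
  refine ⟨2 * (Pell.yn a1 m : ℤ) ^ 2, ?_⟩
  rw [h2]
  linear_combination h1

theorem aux8_yn_lower {g : ℕ} (g1 : 1 < g) (j : ℕ) : (2 * g - 1) ^ j ≤ Pell.yn g1 (j + 1) := by
  induction j with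
  | zero => simp
  | succ j ih =>
    have h1 := Pell.yn_succ_succ g1 j
    have h2 : Pell.yn g1 j ≤ Pell.yn g1 (j + 1) := (Pell.strictMono_y g1).monotone (by omega)
    have h3 : (2 * g - 1) * Pell.yn g1 (j + 1) + Pell.yn g1 (j + 1) = 2 * g * Pell.yn g1 (j + 1) := by
      rw [← Nat.succ_mul]
      congr 1
      omega
    have h4 : (2 * g - 1) * Pell.yn g1 (j + 1) ≤ Pell.yn g1 (j + 1 + 1) := by
      have : j + 1 + 1 = j + 2 := rfl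
      rw [this]
      omega
    calc (2 * g - 1) ^ (j + 1) = (2 * g - 1) * (2 * g - 1) ^ j := by ring
      _ ≤ (2 * g - 1) * Pell.yn g1 (j + 1) := Nat.mul_le_mul_left _ ih
      _ ≤ _ := h4


theorem aux8_size {a n k Y : ℕ} (hn : 3 ≤ n) (han : n ^ 4 ≤ a) (hk3 : 3 ≤ k)
    (h26 : (2 * a - 1) ^ (k - 1) ≤ Y) : n ^ 4 < Y ∧ k ^ 2 < Y := by
  have ha81 : 81 ≤ a := by
    have : 3 ^ 4 ≤ n ^ 4 := Nat.pow_le_pow_left hn 4
    omega
  constructor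
  · have h28 : (2 * a - 1) ^ 2 ≤ (2 * a - 1) ^ (k - 1) := Nat.pow_le_pow_right (by omega) (by omega)
    have h29 : a < (2 * a - 1) ^ 2 := by
      have : a < 2 * a - 1 := by omega
      nlinarith
    omega
  · have h31 : k < 2 ^ k := Nat.lt_two_pow_self
    have h32 : k ^ 2 < (2 ^ k) ^ 2 := Nat.pow_lt_pow_left h31 (by norm_num)
    have h33 : (2 ^ k) ^ 2 = 4 * 4 ^ (k - 1) := by
      have h0 : 2 ^ k = 2 * 2 ^ (k - 1) := by
        rw [← pow_succ']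
        congr 1
        omega
      rw [h0, mul_pow, ← pow_mul, mul_comm (k - 1) 2, pow_mul]
      norm_num
    have h34 : 4 * 4 ^ (k - 1) ≤ 16 ^ (k - 1) := by
      have h35 : (16 : ℕ) ^ (k - 1) = 4 ^ (k - 1) * 4 ^ (k - 1) := by
        rw [← mul_pow]
        norm_num
      rw [h35]
      apply Nat.mul_le_mul_right
      calc 4 = 4 ^ 1 := by norm_num
        _ ≤ 4 ^ (k - 1) := Nat.pow_le_pow_right (by norm_num) (by omega)
    have h36 : 16 ^ (k - 1) ≤ (2 * a - 1) ^ (k - 1) := Nat.pow_le_pow_left (by omega) _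
    omega

theorem aux8_modH {b h H : ℤ} (hb : 1 < b)
    (h17 : (b - 1) ^ 2 ∣ 1 + h ^ 2 * (b - 1) - (b + (b ^ 2 - 1) * H)) :
    (b - 1) ∣ h ^ 2 - (1 + 2 * H) := by
  obtain ⟨c, hc⟩ := h17
  refine ⟨c + H, ?_⟩
  have hbne : b - 1 ≠ 0 := by linarith
  apply mul_left_cancel₀ hbne
  linear_combination hc

theorem aux8_aF {a E : ℤ} (ha : 1 < a) (hE : 1 ≤ E) : a < (a ^ 2 - 1) * E ^ 2 + 1 := by
  have h1 : 1 ≤ E ^ 2 := by nlinarith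
  have h2 : 0 ≤ (a ^ 2 - 1) * (E ^ 2 - 1) := mul_nonneg (by nlinarith) (by linarith)
  nlinarith

theorem aux8_ab {a F : ℤ} (ha : 1 < a) (hF : a < F) : a < a + F * (F - a) := by
  have : 0 < F * (F - a) := mul_pos (by linarith) (by linarith)
  linarith

theorem aux8_sq1 {b : ℤ} (hb : 1 < b) : 0 < b ^ 2 - 1 := by nlinarith

theorem aux8_dd {a : ℤ} (ha : 1 < a) (h : (a ^ 2 - 1) ∣ a - 1) : False := by
  have := Int.le_of_dvd (by linarith) h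
  nlinarith

theorem aux8_w1 {a w : ℤ} (ha : 1 < a) (hw : 1 ≤ w) (h : a = a + (a ^ 2 - 1) * w) : False := by
  have : 0 < (a ^ 2 - 1) * w := mul_pos (aux8_sq1 ha) (by linarith)
  linarith

/-- PR-8: soundness of the Pell chain. -/
theorem chain_sound {n a w e y : ℕ} (a1 : 1 < a) (hn : 3 ≤ n) (han : n ^ 4 ≤ a) (hw : 1 ≤ w)
    (he : 1 ≤ e)
    (h2 : IsSquare (qY (a : ℤ) w))
    (h3 : IsSquare (qF (a : ℤ) (qY (a : ℤ) w * e)))
    (h4 : IsSquare (qY (qb (a : ℤ) (qF (a : ℤ) (qY (a : ℤ) w * e)))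
      ((w : ℤ) + qF (a : ℤ) (qY (a : ℤ) w * e) * y)))
    (h5 : 2 * qY (a : ℤ) w ∣
      2 * ((w : ℤ) + qF (a : ℤ) (qY (a : ℤ) w * e) * y) + 1 - (n : ℤ) ^ 4) :
    Odd n ∧ (a : ℤ) + ((a : ℤ) ^ 2 - 1) * w = Pell.xn a1 (n ^ 2) := by
  have ha1 : (1 : ℤ) < a := by exact_mod_cast a1
  have hw1 : (1 : ℤ) ≤ w := by exact_mod_cast hw
  have he1 : (1 : ℤ) ≤ e := by exact_mod_cast he
  have hDpos : (0 : ℤ) < (a : ℤ) ^ 2 - 1 := aux8_sq1 ha1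
  -- step 1: X, Y
  obtain ⟨r, hr⟩ := h2
  obtain ⟨Y, hYdef⟩ : ∃ Y : ℕ, Y = r.natAbs := ⟨_, rfl⟩
  have hY2 : qY (a : ℤ) w = (Y : ℤ) ^ 2 := by
    rw [hr, hYdef, Int.natCast_natAbs, sq_abs]; ring
  obtain ⟨X, hX⟩ : ∃ X : ℕ, (X : ℤ) = (a : ℤ) + ((a : ℤ) ^ 2 - 1) * w :=
    ⟨((a : ℤ) + ((a : ℤ) ^ 2 - 1) * w).toNat, Int.toNat_of_nonneg (by positivity)⟩
  have hP1 : (X : ℤ) ^ 2 - ((a : ℤ) ^ 2 - 1) * (Y : ℤ) ^ 2 = 1 := by
    rw [hX, ← hY2]; unfold qY; ring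
  obtain ⟨k, hk1, hk2⟩ := aux8_pell a1 X Y hP1
  -- step 2: k odd, k >= 3
  have hkodd : Odd k := by
    by_contra hcon
    rw [Nat.not_odd_iff_even] at hcon
    obtain ⟨m, hm⟩ := hcon
    have hev := aux8_even_dvd a1 m
    rw [two_mul, ← hm, ← hk1, hX] at hev
    have hd : ((a : ℤ) ^ 2 - 1) ∣ (a : ℤ) - 1 := by
      have : (a : ℤ) - 1 = ((a : ℤ) + ((a : ℤ) ^ 2 - 1) * w - 1) - ((a : ℤ) ^ 2 - 1) * w := by ring
      rw [this]
      exact dvd_sub hev (Dvd.intro _ rfl)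
    exact aux8_dd ha1 hd
  have hk3 : 3 ≤ k := by
    have hk1' : k ≠ 1 := by
      intro h1
      rw [h1, Pell.xn_one] at hk1
      rw [hk1] at hX
      exact aux8_w1 ha1 hw1 hX
    obtain ⟨m, hm⟩ := hkodd
    omega
  -- step 3: E, F
  obtain ⟨s, hs⟩ := h3
  obtain ⟨E, hEdef⟩ : ∃ E : ℕ, E = Y ^ 2 * e := ⟨_, rfl⟩
  have hE : qY (a : ℤ) w * e = (E : ℤ) := by rw [hY2, hEdef]; push_cast; ring
  rw [hE] at h4 h5 hs
  obtain ⟨F, hFdef⟩ : ∃ F : ℤ, F = qF (a : ℤ) E := ⟨_, rfl⟩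
  rw [← hFdef] at h4 h5 hs
  have hF1 : F = ((a : ℤ) ^ 2 - 1) * (E : ℤ) ^ 2 + 1 := by rw [hFdef]; rfl
  have hP2 : ((s.natAbs : ℕ) : ℤ) ^ 2 - ((a : ℤ) ^ 2 - 1) * (E : ℤ) ^ 2 = 1 := by
    rw [Int.natCast_natAbs, sq_abs]
    have : s ^ 2 = F := by rw [hs]; ring
    rw [this, hF1]; ring
  obtain ⟨f, hf1, hf2⟩ := aux8_pell a1 _ _ hP2
  have hFf : F = (Pell.xn a1 f : ℤ) ^ 2 := by
    rw [← hf1, Int.natCast_natAbs, sq_abs, hs]; ring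
  have hYpos : 0 < Y := by
    rw [hk2]
    have := Pell.yn_ge_n a1 k
    omega
  have hEpos : 0 < E := by rw [hEdef]; positivity
  have hYf : Y ∣ f := by
    have : Pell.yn a1 k * Pell.yn a1 k ∣ Pell.yn a1 f := by
      rw [← hf2, ← hk2, hEdef]
      exact ⟨e, by ring⟩
    have := Pell.dvd_of_ysq_dvd a1 this
    rwa [← hk2] at this
  have hfpos : 0 < f := by
    rcases Nat.eq_zero_or_pos f with h0 | h0
    · rw [h0, Pell.yn_zero] at hf2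
      omega
    · exact h0
  have hkY : k ≤ Y := by rw [hk2]; exact Pell.yn_ge_n a1 k
  have hYlef : Y ≤ f := Nat.le_of_dvd hfpos hYf
  -- step 4: b
  have hEY : (Y : ℤ) ^ 2 ≤ E := by
    rw [hEdef]; push_cast
    exact le_mul_of_one_le_right (sq_nonneg _) he1
  have hEpos' : (1 : ℤ) ≤ E := by exact_mod_cast hEpos
  have hFa : (a : ℤ) < F := by
    rw [hF1]
    exact aux8_aF ha1 hEpos'
  obtain ⟨b, hb⟩ : ∃ b : ℕ, (b : ℤ) = qb (a : ℤ) F := by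
    refine ⟨(qb (a : ℤ) F).toNat, Int.toNat_of_nonneg ?_⟩
    exact (by linarith : (0 : ℤ) ≤ a).trans (aux8_ab ha1 hFa).le
  have hb' : (b : ℤ) = a + F * (F - a) := by rw [hb]; rfl
  have hba : (a : ℤ) < b := by
    rw [hb']
    exact aux8_ab ha1 hFa
  have b1 : 1 < b := by
    have : (1 : ℤ) < b := by linarith
    exact_mod_cast this
  rw [← hb] at h4
  obtain ⟨t, ht⟩ := h4
  obtain ⟨H, hHdef⟩ : ∃ H : ℤ, H = (w : ℤ) + F * y := ⟨_, rfl⟩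
  rw [← hHdef] at ht h5
  have hHnn : 0 ≤ H := by
    rw [hHdef]
    have : 0 ≤ F * y := mul_nonneg (by linarith) (by positivity)
    linarith
  have hb1' : (1 : ℤ) < b := by exact_mod_cast b1
  obtain ⟨XH, hXH⟩ : ∃ XH : ℕ, (XH : ℤ) = (b : ℤ) + ((b : ℤ) ^ 2 - 1) * H := by
    refine ⟨((b : ℤ) + ((b : ℤ) ^ 2 - 1) * H).toNat, Int.toNat_of_nonneg ?_⟩
    have : 0 ≤ ((b : ℤ) ^ 2 - 1) * H := mul_nonneg (aux8_sq1 hb1').le hHnn
    linarith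
  have hP3 : (XH : ℤ) ^ 2 - ((b : ℤ) ^ 2 - 1) * ((t.natAbs : ℕ) : ℤ) ^ 2 = 1 := by
    have h6 : ((t.natAbs : ℕ) : ℤ) ^ 2 = qY (b : ℤ) H := by
      rw [Int.natCast_natAbs, sq_abs, ht]; ring
    rw [h6, hXH]; unfold qY; ring
  obtain ⟨h, hh1, hh2⟩ := aux8_pell b1 XH _ hP3
  -- step 5: xn a h = xn a k mod xn a f
  obtain ⟨F', hF'⟩ : ∃ F' : ℕ, (F' : ℤ) = F := ⟨F.toNat, Int.toNat_of_nonneg (by linarith)⟩
  have hmodab : b ≡ a [MOD F'] := by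
    rw [← Int.natCast_modEq_iff, Int.modEq_iff_dvd, hF', hb']
    exact ⟨-(F - a), by ring⟩
  have h7 := (Pell.xy_modEq_of_modEq b1 a1 hmodab h).1
  have h8 : Pell.xn b1 h ≡ Pell.xn a1 k [MOD F'] := by
    rw [← hh1, ← hk1, ← Int.natCast_modEq_iff, Int.modEq_iff_dvd, hF', hXH, hX]
    rw [hb', hHdef]
    refine ⟨-((F - a) + ((F - a) * (2 * a + F * (F - a))) * ((w : ℤ) + F * y) + ((a : ℤ) ^ 2 - 1) * y), ?_⟩
    ring
  have h9 : Pell.xn a1 h ≡ Pell.xn a1 k [MOD F'] := h7.symm.trans h8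
  have h10 : Pell.xn a1 h ≡ Pell.xn a1 k [MOD Pell.xn a1 f] := by
    refine h9.of_dvd ?_
    have : (F' : ℤ) = ((Pell.xn a1 f ^ 2 : ℕ) : ℤ) := by rw [hF', hFf]; push_cast; ring
    have : F' = Pell.xn a1 f ^ 2 := by exact_mod_cast this
    rw [this]
    exact Dvd.intro _ (by ring)
  have h11 := Pell.modEq_of_xn_modEq a1 (by omega : 0 < k) (hkY.trans hYlef) h10
  -- step 6 : Y divides h^2 - k^2
  have h12 : (Y : ℤ) ∣ (h : ℤ) ^ 2 - (k : ℤ) ^ 2 := by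
    have hYf' : (Y : ℤ) ∣ ((4 * f : ℕ) : ℤ) := by
      push_cast
      exact Dvd.dvd.mul_left (by exact_mod_cast hYf) _
    have hfac : (h : ℤ) ^ 2 - (k : ℤ) ^ 2 = ((h : ℤ) - k) * ((h : ℤ) + k) := by ring
    rw [hfac]
    rcases h11 with h13 | h13
    · rw [← Int.natCast_modEq_iff, Int.modEq_iff_dvd] at h13
      have h14 := hYf'.trans h13
      have h15 : (Y : ℤ) ∣ (h : ℤ) - k := by
        have := (dvd_neg (a := (Y : ℤ))).2 h14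
        rwa [neg_sub] at this
      exact Dvd.dvd.mul_right h15 _
    · rw [← Int.natCast_modEq_iff, Int.modEq_iff_dvd] at h13
      have h14 := hYf'.trans h13
      have h15 : (Y : ℤ) ∣ (h : ℤ) + k := by
        have := (dvd_neg (a := (Y : ℤ))).2 h14
        push_cast at this
        rwa [neg_sub, sub_zero] at this
      exact Dvd.dvd.mul_left h15 _
  -- step 7: 1 + 2 H = h^2 mod b - 1
  have h16 : ((b : ℤ) - 1) ∣ (h : ℤ) ^ 2 - (1 + 2 * H) := by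
    have h17 := aux8_modEq_sq b1 h
    rw [← hh1, Int.modEq_iff_dvd, hXH] at h17
    exact aux8_modH hb1' h17
  have h18 : (Y : ℤ) ^ 2 ∣ (b : ℤ) - 1 := by
    have h19 : (b : ℤ) - 1 = (Y : ℤ) ^ 2 * (((a : ℤ) ^ 2 - 1) * E * e * (F + 1 - a)) := by
      have hE' : (E : ℤ) = (Y : ℤ) ^ 2 * e := by rw [hEdef]; push_cast; ring
      have hF2 : F - 1 = ((a : ℤ) ^ 2 - 1) * (E : ℤ) * ((Y : ℤ) ^ 2 * e) := by
        rw [← hE', hF1]; ring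
      rw [hb']
      linear_combination (F + 1 - a) * hF2
    exact ⟨_, h19⟩
  have h20 : (Y : ℤ) ∣ (b : ℤ) - 1 := (Dvd.intro _ (by ring : (Y : ℤ) * Y = (Y : ℤ) ^ 2)).trans h18
  have h21 : (Y : ℤ) ∣ (h : ℤ) ^ 2 - (1 + 2 * H) := h20.trans h16
  -- step 8: parity and n^4 = 1 + 2 H mod Y
  have hodd : Odd n := by
    by_contra hcon
    rw [Nat.not_odd_iff_even] at hcon
    obtain ⟨m, hm⟩ := hcon
    have h22 : (2 : ℤ) ∣ 2 * H + 1 - (n : ℤ) ^ 4 := (Dvd.intro _ rfl).trans h5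
    have h23 : (n : ℤ) ^ 4 = 2 * (8 * (m : ℤ) ^ 4) := by rw [hm]; push_cast; ring
    rw [h23] at h22
    omega
  have h24 : (Y : ℤ) ∣ 2 * H + 1 - (n : ℤ) ^ 4 := by
    refine (Dvd.intro (2 * (Y : ℤ)) ?_).trans h5
    rw [hY2]; ring
  have h25 : (Y : ℤ) ∣ ((k ^ 2 : ℕ) : ℤ) - ((n ^ 4 : ℕ) : ℤ) := by
    have : ((k ^ 2 : ℕ) : ℤ) - ((n ^ 4 : ℕ) : ℤ) = ((h : ℤ) ^ 2 - (1 + 2 * H)) + (2 * H + 1 - (n : ℤ) ^ 4)
        - ((h : ℤ) ^ 2 - (k : ℤ) ^ 2) := by push_cast; ring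
    rw [this]
    exact dvd_sub (dvd_add h21 h24) h12
  -- step 9: sizes
  have h26 : (2 * a - 1) ^ (k - 1) ≤ Y := by
    have := aux8_yn_lower a1 (k - 1)
    rw [Nat.sub_add_cancel (by omega : 1 ≤ k)] at this
    rw [hk2]; exact this
  obtain ⟨h27, h30⟩ := aux8_size hn han hk3 h26
  have h37 : k ^ 2 = n ^ 4 := by
    have h38 : k ^ 2 ≡ n ^ 4 [MOD Y] := by
      rw [← Int.natCast_modEq_iff, Int.modEq_iff_dvd]
      have := (dvd_neg (a := (Y : ℤ))).2 h25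
      rwa [neg_sub] at this
    exact Nat.ModEq.eq_of_lt_of_lt h38 h30 h27
  have h39 : k = n ^ 2 := by
    have : k ^ 2 = (n ^ 2) ^ 2 := by rw [h37]; ring
    exact Nat.pow_left_injective (by norm_num : 2 ≠ 0) this
  refine ⟨hodd, ?_⟩
  rw [← hX, hk1, h39]

end Pool.Agent.Helper50.PR
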